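import Pool.Agent.Run7.h507.KR.Fin
import Pool.Agent.Run7.h774.KR.PP
import Pool.Agent.Run7.h774.KR.WA
import Pool.Agent.Run7.h774.KR.DUAL
import Pool.Agent.Run7.h669.KR.PAR
import Pool.Agent.Run7.h669.KR.ANN
import Pool.Agent.Run7.h136.KR.HB
import Pool.Agent.Run7.h354.KR.T0B
import Pool.Agent.Run7.h354.KR.REC
import Pool.Agent.Run7.h228.KR.TQ
import Pool.Agent.Run7.h431.KR.SER
import Pool.Agent.Run7.h646.KR.MX
import Pool.Agent.Run7.h305.KR.MIX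
import Pool.Agent.Run7.h824.KR.BERG
import Pool.Agent.Run7.h228.KR.ZER

set_option autoImplicit false

open MeasureTheory Metric Set

namespace Pool.Agent.Run7.h507.KR

theorem mix : S_MIX := by
  have hPP : S_PP := _root_.Run7.h774.KR.t_PP
  have hT : S_T0B := Run7.h354.KR.t_T0B hPP
  have hR : S_REC := Run7.h354.KR.R.t_REC hPP
  have hQ : S_TQ := _root_.Run7.h228.KR.TQ.t_TQ hPP hT hR
  exact Run7.h305.KR.t_MIX (_root_.Run7.h646.KR.t_MXc hPP hT hQ) hT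

theorem wa : S_WA :=
  _root_.Run7.h774.KR.t_WA _root_.Run7.h774.KR.t_DUAL
    (Run7.h136.KR.t_HB Run7.h669.KR.t_ANN Run7.h669.KR.t_PAR)

theorem final {r : ℝ} (hr0 : 0 ≤ r) (hr : r ^ 2 < 17 / 50) {n : ℕ} (hn : 1 ≤ n) {c : ℂ}
    {f φ : ℂ → ℂ} (hf : DifferentiableOn ℂ f (ball 0 1)) (hφ : DifferentiableOn ℂ φ (ball 0 1))
    (hmaj : ∀ z : ℂ, r < ‖z‖ → ‖z‖ < 1 → ‖c * z ^ n‖ ≤ ‖f z‖) :
    ∫⁻ z in ball (0 : ℂ) 1, ‖c * z ^ n * φ z‖ₑ ^ 2 ≤ ∫⁻ z in ball (0 : ℂ) 1, ‖f z * φ z‖ₑ ^ 2 :=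
  main wa Run7.h431.KR.t_SER _root_.Run7.h228.KR.ZER.t_ZER Run7.h824.KR.t_BERG mix hr0 hr hn hf hφ hmaj

end Pool.Agent.Run7.h507.KR
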