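import Mathlib

/-!
Project KR (helper507): domination in the Bergman space for the monomials `z^m`, `m ≥ 1`
(MP_5cb574_an Q1 for `g` a nonconstant monomial). The kernel `∑ (k+1) t^k` is, up to the
coefficients with `k < m`, a positive mixture of the kernels `∑ t^k / (1 + β q^k)` of an annulus.
-/

set_option autoImplicit false

open MeasureTheory Metric Set Filter Topology

namespace Pool.Agent.Run7.h507.KR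

/-- the `k`-th Fourier coefficient of `H` on the circle `|z| = R` -/
noncomputable def co (H : ℂ → ℂ) (R : ℝ) (k : ℤ) : ℂ :=
  (((2 * Real.pi)⁻¹ : ℝ) : ℂ) * ∫ θ in (0 : ℝ)..(2 * Real.pi),
    H (circleMap 0 R θ) * Complex.exp (-(((k : ℝ) * θ : ℝ) * Complex.I))

/-- the mean square of `H` on the circle `|z| = R` -/
noncomputable def ms (H : ℂ → ℂ) (R : ℝ) : ℝ :=
  (2 * Real.pi)⁻¹ * ∫ θ in (0 : ℝ)..(2 * Real.pi), ‖H (circleMap 0 R θ)‖ ^ 2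

/-- the annulus `r < |z| < 1` -/
def Ann (r : ℝ) : Set ℂ := {z | r < ‖z‖ ∧ ‖z‖ < 1}

/-- DUAL (40 lines, finite linear algebra). Put `z l = ∑ k ∈ K, conj (t k l) * y k` and
`x l = z l / v l`; then `∑ l ∈ s, ‖z l‖² / v l = re ∑ k ∈ K, conj (∑ l ∈ s, t k l * x l) * y k`, and
Cauchy-Schwarz with the weights `u k` and the hypothesis for `x`. -/
def S_DUAL : Prop := ∀ (K s : Finset ℤ) (t : ℤ → ℤ → ℂ) (u v : ℤ → ℝ),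
  (∀ k, 0 < u k) → (∀ l, 0 < v l) →
  (∀ x : ℤ → ℂ, ∑ k ∈ K, u k * ‖∑ l ∈ s, t k l * x l‖ ^ 2 ≤ ∑ l ∈ s, v l * ‖x l‖ ^ 2) →
  ∀ y : ℤ → ℂ, ∑ l ∈ s, (v l)⁻¹ * ‖∑ k ∈ K, (starRingEnd ℂ) (t k l) * y k‖ ^ 2
    ≤ ∑ k ∈ K, (u k)⁻¹ * ‖y k‖ ^ 2

/-- ANN (40 lines): `Complex.circleIntegral_eq_of_differentiable_on_annulus_off_countable` for
`z^(-k-1) H(z)` on `ρ ≤ |z| ≤ R`. -/
def S_ANN : Prop := ∀ (r ρ R : ℝ) (H : ℂ → ℂ) (k : ℤ), 0 ≤ r → r < ρ → ρ < R → R < 1 →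
  DifferentiableOn ℂ H (Ann r) → co H ρ k = (((ρ / R) ^ k : ℝ) : ℂ) * co H R k

/-- PAR (50 lines): Parseval on the circle (`tsum_sq_fourierCoeff`, `hasSum_sq_fourierCoeffOn` or the
like; there are versions of it in the starting files). -/
def S_PAR : Prop := ∀ (R : ℝ) (H : ℂ → ℂ), 0 < R → ContinuousOn H (sphere 0 R) →
  HasSum (fun k : ℤ => ‖co H R k‖ ^ 2) (ms H R)

/-- HB (60 lines; uses S_ANN, S_PAR), `q = (ρ/R)²`. Let `X z = ∑ l ∈ s, x l * R^(-l) * z^l` (`zpow`).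
`co (h X) R k = ∑ l ∈ s, co h R (k-l) * x l` (directly), the same on the circle `ρ` by S_ANN for `h X`;
`∑ ‖co (h X) R k‖² = ms (h X) R ≤ ms X R = ∑ l ∈ s, ‖x l‖²` and
`∑ q^k ‖co (h X) R k‖² = ms (h X) ρ ≤ ms X ρ = ∑ l ∈ s, q^l ‖x l‖²`. -/
def S_HB : Prop := ∀ (r ρ R β : ℝ) (h : ℂ → ℂ), 0 ≤ r → r < ρ → ρ < R → R < 1 → 0 ≤ β →
  DifferentiableOn ℂ h (Ann r) → (∀ z ∈ Ann r, ‖h z‖ ≤ 1) →
  ∀ (K s : Finset ℤ) (x : ℤ → ℂ),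
    ∑ k ∈ K, (1 + β * ((ρ / R) ^ 2) ^ k) * ‖∑ l ∈ s, co h R (k - l) * x l‖ ^ 2
      ≤ ∑ l ∈ s, (1 + β * ((ρ / R) ^ 2) ^ l) * ‖x l‖ ^ 2

/-- SER (50 lines): the Taylor series of `F` converges uniformly on the circle; `co F R l = c_l R^l`. -/
def S_SER : Prop := ∀ (R : ℝ) (h F : ℂ → ℂ) (k : ℤ), 0 < R → R < 1 → ContinuousOn h (sphere 0 R) →
  DifferentiableOn ℂ F (ball 0 1) →
  HasSum (fun l : ℕ => co h R (k - l) * co F R l) (co (fun z => h z * F z) R k)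

/-- ZER (25 lines): the coefficients with `k < m` of `z^m φ` vanish (Cauchy). -/
def S_ZER : Prop := ∀ (R : ℝ) (φ : ℂ → ℂ) (m : ℕ) (k : ℤ), 0 < R → R < 1 →
  DifferentiableOn ℂ φ (ball 0 1) → k < m → co (fun z => z ^ m * φ z) R k = 0

/-- BERG (80 lines): the square norm on a disc (polar coordinates, or a version of the starting
files). -/
def S_BERG : Prop := ∀ (R : ℝ) (F : ℂ → ℂ), 0 < R → R < 1 → DifferentiableOn ℂ F (ball 0 1) →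
  HasSum (fun l : ℕ => Real.pi * R ^ 2 * (‖co F R l‖ ^ 2 / (l + 1)))
    (∫ z in ball (0 : ℂ) R, ‖F z‖ ^ 2)

/-! ### the mixture: `q = 17/50 > 1/3`, `κ = 1 - 2 q = 8/25` -/

/-- `P m = ∏_{l=1}^m (κ + q^l) / (1 - q^l)` -/
noncomputable def P : ℕ → ℝ
  | 0 => 1
  | m + 1 => P m * ((8 / 25 + (17 / 50) ^ (m + 1)) / (1 - (17 / 50) ^ (m + 1)))

/-- `T x = ∑ (-1)^m P m / (1 + κ x q^(-m-1))` -/
noncomputable def T (x : ℝ) : ℝ :=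
  ∑' m : ℕ, (-1) ^ m * P m * ((17 / 50) ^ (m + 1) / ((17 / 50) ^ (m + 1) + 8 / 25 * x))

/-- `T0 = ∑ (-1)^m P m` -/
noncomputable def T0 : ℝ := ∑' m : ℕ, (-1) ^ m * P m

/-- the weights -/
noncomputable def B (m : ℕ) : ℝ := (∑ i ∈ Finset.range (m + 1), (-1) ^ i * P i) / T0

/-- PP (30 lines): the factors are at most `1`, and at most `1/2` for `l ≥ 2`. -/
def S_PP : Prop := (∀ m, 0 < P m) ∧ Antitone P ∧ Summable P ∧ P 1 = 1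

/-- T0B (30 lines; uses S_PP): alternating series: `T0 ≥ P 2 - P 3`, `T 1 ≤ t_0 - t_1 + t_2`
(`0.51516 - 0.26538 + 0.05389`), `B m` is between `0` and `P 2 / T0` for `m ≥ 2` (`P 2 = 0.49254...`,
`B 0 = 1 / T0`, `B 1 = 0`). -/
def S_T0B : Prop := 308 / 1000 ≤ T0 ∧ T 1 ≤ 304 / 1000 ∧ (∀ m, 0 ≤ B m) ∧ B 0 = 1 / T0 ∧ B 1 = 0 ∧
  ∀ m, 2 ≤ m → B m ≤ (4926 / 10000) / T0

/-- REC (50 lines; uses S_PP). With `U m = (-1)^m P m q^m (1 - q^m) / (q^m + κ x)`, `U 0 = 0`, the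
`m`-th term of `(κ x + 1) T (q x) - κ (x - 1) T x` is `(-1)^m P m q^m (1 - q) + (U m - U (m+1))`, by
`P m (κ + q^(m+1)) = P (m+1) (1 - q^(m+1))`; and `(1 + κ) ∑ (-1)^m P m = (1 - q) ∑ (-1)^m P m q^m`
by the same relation. -/
def S_REC : Prop := ∀ x : ℝ, 0 < x →
  (8 / 25 * x + 1) * T (17 / 50 * x) = 8 / 25 * (x - 1) * T x + (1 + 8 / 25) * T0

/-- TQ (25 lines; uses S_PP, S_T0B, S_REC): `T (q^k) = T0` for `k ≥ 1` and `T (q^k) ≤ T0` for `k ≤ 0`: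
`κ (x - 1) (T x - T0) = (κ x + 1) (T (q x) - T0)`; induction upwards from `x = 1` and downwards from
`T 1 ≤ 0.304 < 0.308 ≤ T0`. -/
def S_TQ : Prop := (∀ k : ℤ, 1 ≤ k → T ((17 / 50 : ℝ) ^ k) = T0) ∧
  ∀ k : ℤ, k ≤ 0 → T ((17 / 50 : ℝ) ^ k) ≤ T0

/-- MX (60 lines; uses S_PP, S_T0B, S_TQ). `A k = ∑' m, B m / (1 + κ q^(k-1-m))` converges (`B`
bounded, `1/(1+κ q^(k-1-m)) ≤ q^(m+1-k)/κ`), and by `B (m+1) - B m = (-1)^(m+1) P (m+1) / T0`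
(shift the index `m` by one in `A k`) `A (k+1) - A k = T (q^(k+1)) / T0`;
`A 0 ≤ (0.51516 + 0.4926 * 0.1861) / T0 ≤ 2`. -/
def S_MX : Prop := ∃ A : ℤ → ℝ,
  (∀ k, HasSum (fun m : ℕ => B m * (1 + 8 / 25 * (17 / 50 : ℝ) ^ (k - 1 - m))⁻¹) (A k)) ∧
  (∀ k, 0 < A k) ∧ A 0 ≤ 2 ∧ (∀ k, 0 ≤ k → A (k + 1) = A k + 1) ∧ ∀ k, k < 0 → A (k + 1) ≤ A k + 1

/-- MIX (40 lines; uses S_MX, S_T0B): index shifted by `n`, and the constant `n + 1 - A 0 ≥ 0` as the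
weight of `β = 0`. -/
def S_MIX : Prop := ∀ n : ℕ, 1 ≤ n → ∃ (w β : ℕ → ℝ) (a : ℤ → ℝ), (∀ j, 0 ≤ w j) ∧ (∀ j, 0 ≤ β j) ∧
  (∀ k, 0 < a k) ∧ (∀ k, HasSum (fun j => w j * (1 + β j * (17 / 50 : ℝ) ^ k)⁻¹) (a k)) ∧
  (∀ k : ℕ, n ≤ k → a k = k + 1) ∧ ∀ k : ℕ, k < n → (k : ℝ) + 1 ≤ a k

/-- WA (40 lines; uses S_DUAL, S_HB): the inequality of S_HB for the weights `1 / a`: S_DUAL for each
`β j`, multiply by `w j` and sum over `j`, S_DUAL again (for `conj (t l k)`). -/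
def S_WA : Prop := ∀ (r ρ R : ℝ) (h : ℂ → ℂ), 0 ≤ r → r < ρ → ρ < R → R < 1 →
  (ρ / R) ^ 2 = 17 / 50 → DifferentiableOn ℂ h (Ann r) → (∀ z ∈ Ann r, ‖h z‖ ≤ 1) →
  ∀ (w β : ℕ → ℝ) (a : ℤ → ℝ), (∀ j, 0 ≤ w j) → (∀ j, 0 ≤ β j) → (∀ k, 0 < a k) →
  (∀ k, HasSum (fun j => w j * (1 + β j * (17 / 50 : ℝ) ^ k)⁻¹) (a k)) →
  ∀ (K s : Finset ℤ) (x : ℤ → ℂ),
    ∑ k ∈ K, (a k)⁻¹ * ‖∑ l ∈ s, co h R (k - l) * x l‖ ^ 2 ≤ ∑ l ∈ s, (a l)⁻¹ * ‖x l‖ ^ 2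

end Pool.Agent.Run7.h507.KR
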