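import Pool.Agent.Run7.h507.KR.Defs

set_option autoImplicit false

open MeasureTheory Metric Set Filter Topology

namespace Pool.Agent.Run7.h507.KR

theorem disc_le (hWA : S_WA) (hSER : S_SER) (hZER : S_ZER) (hB : S_BERG) (hMIX : S_MIX)
    {r R : ℝ} (hr0 : 0 ≤ r) (hR0 : 0 < R) (hR1 : R < 1) (hrR : r < √(17 / 50) * R)
    {n : ℕ} (hn : 1 ≤ n) {h F φ : ℂ → ℂ} (hh : DifferentiableOn ℂ h (Ann r))
    (hh1 : ∀ z ∈ Ann r, ‖h z‖ ≤ 1) (hF : DifferentiableOn ℂ F (ball 0 1))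
    (hφ : DifferentiableOn ℂ φ (ball 0 1)) (hG : ∀ z ∈ Ann r, h z * F z = z ^ n * φ z) :
    ∫ z in ball (0 : ℂ) R, ‖z ^ n * φ z‖ ^ 2 ≤ ∫ z in ball (0 : ℂ) R, ‖F z‖ ^ 2 := by
  obtain ⟨w, β, a, hw, hβ, ha, hsum, hge, hlt⟩ := hMIX n hn
  have hs : (0 : ℝ) < √(17 / 50) := Real.sqrt_pos.2 (by norm_num)
  have hs1 : √(17 / 50 : ℝ) < 1 := by
    rw [Real.sqrt_lt' one_pos]
    norm_num
  have hρR : √(17 / 50) * R < R := by nlinarith
  have hq : (√(17 / 50) * R / R) ^ 2 = 17 / 50 := by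
    rw [mul_div_cancel_right₀ _ hR0.ne', Real.sq_sqrt (by norm_num)]
  have hGd : DifferentiableOn ℂ (fun z => z ^ n * φ z) (ball 0 1) :=
    (differentiableOn_id.pow n).mul hφ
  have hmem : ∀ z ∈ sphere (0 : ℂ) R, z ∈ Ann r := by
    intro z hz
    rw [mem_sphere_zero_iff_norm] at hz
    exact ⟨by rw [hz]; exact hrR.trans hρR, by rw [hz]; exact hR1⟩
  have hsub : sphere (0 : ℂ) R ⊆ ball 0 1 := fun z hz => by
    rw [mem_sphere_zero_iff_norm] at hz
    rw [mem_ball_zero_iff, hz]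
    exact hR1
  have hc : ContinuousOn h (sphere 0 R) := hh.continuousOn.mono hmem
  have hcoG : ∀ k, co (fun z => h z * F z) R k = co (fun z => z ^ n * φ z) R k := by
    intro k
    unfold co
    congr 1
    refine intervalIntegral.integral_congr fun θ _ => ?_
    have h1 : circleMap 0 R θ ∈ Ann r := hmem _ (circleMap_mem_sphere 0 hR0.le θ)
    show h _ * F _ * _ = _ * φ _ * _
    rw [hG _ h1]
  have hBF := hB R F hR0 hR1 hF
  have hBG := hB R (fun z => z ^ n * φ z) hR0 hR1 hGd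
  have hC : (0 : ℝ) < Real.pi * R ^ 2 := by positivity
  -- the inequality for finitely many coefficients
  have key : ∀ K : Finset ℕ, ∑ k ∈ K, (a k)⁻¹ * ‖co (fun z => z ^ n * φ z) R k‖ ^ 2
      ≤ (∫ z in ball (0 : ℂ) R, ‖F z‖ ^ 2) / (Real.pi * R ^ 2) := by
    intro K
    have h1 : ∀ k : ℕ, Tendsto (fun N : ℕ => ∑ l ∈ Finset.range N, co h R ((k : ℤ) - l) * co F R l)
        atTop (𝓝 (co (fun z => z ^ n * φ z) R k)) := by
      intro k
      rw [← hcoG]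
      exact (hSER R h F k hR0 hR1 hc hF).tendsto_sum_nat
    have h2 : Tendsto (fun N : ℕ => ∑ k ∈ K, (a k)⁻¹ *
        ‖∑ l ∈ Finset.range N, co h R ((k : ℤ) - l) * co F R l‖ ^ 2) atTop
        (𝓝 (∑ k ∈ K, (a k)⁻¹ * ‖co (fun z => z ^ n * φ z) R k‖ ^ 2)) :=
      tendsto_finsetSum _ fun k _ => ((h1 k).norm.pow 2).const_mul _
    refine le_of_tendsto' h2 fun N => ?_
    have h3 := hWA r (√(17 / 50) * R) R h hr0 hrR hρR hR1 hq hh hh1 w β a hw hβ ha hsum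
      (K.map Nat.castEmbedding) ((Finset.range N).map Nat.castEmbedding) (fun l => co F R l)
    simp only [Finset.sum_map, Nat.castEmbedding_apply] at h3
    refine h3.trans ?_
    rw [le_div_iff₀ hC, Finset.sum_mul]
    have h4 : ∀ l ∈ Finset.range N, (a l)⁻¹ * ‖co F R l‖ ^ 2 * (Real.pi * R ^ 2)
        ≤ Real.pi * R ^ 2 * (‖co F R l‖ ^ 2 / (l + 1)) := by
      intro l _
      have h5 : (l : ℝ) + 1 ≤ a l := by
        rcases lt_or_ge l n with h | h
        · exact hlt l h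
        · exact (hge l h).ge
      have h6 : (a l)⁻¹ ≤ ((l : ℝ) + 1)⁻¹ := inv_anti₀ (by positivity) h5
      have h7 : 0 ≤ ‖co F R l‖ ^ 2 := sq_nonneg _
      calc (a l)⁻¹ * ‖co F R l‖ ^ 2 * (Real.pi * R ^ 2)
          ≤ ((l : ℝ) + 1)⁻¹ * ‖co F R l‖ ^ 2 * (Real.pi * R ^ 2) := by gcongr
        _ = _ := by ring
    refine (Finset.sum_le_sum h4).trans ?_
    exact sum_le_hasSum _ (fun l _ => by positivity) hBF
  refine hasSum_le_of_sum_le hBG fun K => ?_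
  have h1 : ∀ k ∈ K, Real.pi * R ^ 2 * (‖co (fun z => z ^ n * φ z) R k‖ ^ 2 / (k + 1))
      = Real.pi * R ^ 2 * ((a k)⁻¹ * ‖co (fun z => z ^ n * φ z) R k‖ ^ 2) := by
    intro k _
    rcases lt_or_ge k n with h | h
    · rw [hZER R φ n k hR0 hR1 hφ (by exact_mod_cast h)]
      simp
    · rw [hge k h]
      ring
  rw [Finset.sum_congr rfl h1, ← Finset.mul_sum]
  have h2 := key K
  rw [le_div_iff₀ hC] at h2
  linarith

theorem main (hWA : S_WA) (hSER : S_SER) (hZER : S_ZER) (hB : S_BERG) (hMIX : S_MIX)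
    {r : ℝ} (hr0 : 0 ≤ r) (hr : r ^ 2 < 17 / 50) {n : ℕ} (hn : 1 ≤ n) {c : ℂ} {f φ : ℂ → ℂ}
    (hf : DifferentiableOn ℂ f (ball 0 1)) (hφ : DifferentiableOn ℂ φ (ball 0 1))
    (hmaj : ∀ z : ℂ, r < ‖z‖ → ‖z‖ < 1 → ‖c * z ^ n‖ ≤ ‖f z‖) :
    ∫⁻ z in ball (0 : ℂ) 1, ‖c * z ^ n * φ z‖ₑ ^ 2 ≤ ∫⁻ z in ball (0 : ℂ) 1, ‖f z * φ z‖ₑ ^ 2 := by
  rcases eq_or_ne c 0 with rfl | hc
  · simp
  have hne : ∀ z ∈ Ann r, f z ≠ 0 := by
    intro z hz h0
    have h1 := hmaj z hz.1 hz.2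
    rw [h0, norm_zero, norm_mul, norm_pow] at h1
    have h2 : 0 < ‖z‖ := hr0.trans_lt hz.1
    have h3 : 0 < ‖c‖ * ‖z‖ ^ n := mul_pos (norm_pos_iff.2 hc) (pow_pos h2 n)
    linarith
  have hsubA : Ann r ⊆ ball 0 1 := fun z hz => by rw [mem_ball_zero_iff]; exact hz.2
  have hh : DifferentiableOn ℂ (fun z => c * z ^ n / f z) (Ann r) :=
    ((differentiableOn_const c).mul (differentiableOn_id.pow n)).div (hf.mono hsubA) hne
  have hh1 : ∀ z ∈ Ann r, ‖c * z ^ n / f z‖ ≤ 1 := by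
    intro z hz
    rw [norm_div]
    exact div_le_one_of_le₀ (hmaj z hz.1 hz.2) (norm_nonneg _)
  have hs : (0 : ℝ) < √(17 / 50) := Real.sqrt_pos.2 (by norm_num)
  have hrs : r < √(17 / 50) := Real.lt_sqrt_of_sq_lt hr
  -- the discs
  have hdisc : ∀ R : ℝ, r / √(17 / 50) < R → 0 < R → R < 1 →
      ∫⁻ z in ball (0 : ℂ) R, ‖c * z ^ n * φ z‖ₑ ^ 2 ≤ ∫⁻ z in ball (0 : ℂ) R, ‖f z * φ z‖ₑ ^ 2 := by
    intro R hR hR0 hR1
    have hrR : r < √(17 / 50) * R := by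
      rw [div_lt_iff₀ hs] at hR
      linarith
    have h1 := disc_le hWA hSER hZER hB hMIX hr0 hR0 hR1 hrR hn hh hh1 (hf.mul hφ)
      ((differentiableOn_const c).mul hφ) (fun z hz => by
        have := hne z hz
        show c * z ^ n / f z * (f z * φ z) = z ^ n * (c * φ z)
        field_simp)
    have hI : ∀ H : ℂ → ℂ, DifferentiableOn ℂ H (ball 0 1) →
        ∫⁻ z in ball (0 : ℂ) R, ‖H z‖ₑ ^ 2 = ENNReal.ofReal (∫ z in ball (0 : ℂ) R, ‖H z‖ ^ 2) := by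
      intro H hH
      have hcb : closedBall (0 : ℂ) R ⊆ ball 0 1 := closedBall_subset_ball hR1
      have hcont : ContinuousOn (fun z => ‖H z‖ ^ 2) (closedBall (0 : ℂ) R) :=
        ((hH.continuousOn.mono hcb).norm).pow 2
      have hint : IntegrableOn (fun z => ‖H z‖ ^ 2) (ball (0 : ℂ) R) :=
        (hcont.integrableOn_compact (isCompact_closedBall _ _)).mono_set ball_subset_closedBall
      rw [ofReal_integral_eq_lintegral_ofReal hint (Eventually.of_forall fun z => sq_nonneg _)]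
      refine lintegral_congr fun z => ?_
      rw [ENNReal.ofReal_pow (norm_nonneg _), ofReal_norm]
    have e1 := hI (fun z => z ^ n * (c * φ z)) ((differentiableOn_id.pow n).mul
      ((differentiableOn_const c).mul hφ))
    have e2 := hI (fun z => f z * φ z) (hf.mul hφ)
    have e3 : ∫⁻ z in ball (0 : ℂ) R, ‖c * z ^ n * φ z‖ₑ ^ 2
        = ∫⁻ z in ball (0 : ℂ) R, ‖z ^ n * (c * φ z)‖ₑ ^ 2 :=
      lintegral_congr fun z => by
        congr 2
        ring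
    rw [e3, e1, e2]
    exact ENNReal.ofReal_le_ofReal h1
  -- the unit disc is the union of the smaller ones
  have hr1 : r / √(17 / 50) < 1 := by
    rw [div_lt_one hs]
    exact hrs
  have hmx : max (r / √(17 / 50)) 0 < (1 : ℝ) := max_lt hr1 one_pos
  obtain ⟨u, hu1, hu2, hu3⟩ := exists_seq_strictMono_tendsto' hmx
  have hU : ball (0 : ℂ) 1 = ⋃ i, ball (0 : ℂ) (u i) := by
    ext z
    rw [mem_iUnion, mem_ball_zero_iff]
    constructor
    · intro hz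
      obtain ⟨i, hi⟩ := (hu3.eventually (lt_mem_nhds hz)).exists
      exact ⟨i, mem_ball_zero_iff.2 hi⟩
    · rintro ⟨i, hi⟩
      exact (mem_ball_zero_iff.1 hi).trans (hu2 i).2
  have hdir : Directed (· ⊆ ·) fun i => ball (0 : ℂ) (u i) :=
    (monotone_nat_of_le_succ fun i => ball_subset_ball (hu1 (Nat.lt_succ_self i)).le).directed_le
  rw [hU, setLIntegral_iUnion_of_directed _ hdir, setLIntegral_iUnion_of_directed _ hdir]
  refine iSup_mono fun i => ?_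
  have h2 := hu2 i
  exact hdisc (u i) ((le_max_left _ _).trans_lt h2.1) ((le_max_right _ _).trans_lt h2.1) h2.2

end Pool.Agent.Run7.h507.KR
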